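import Pool.Agent.Y316.EV.Stm

/-!
The quotients `(ℤ/p)²` are a sofic approximation (helper302, job EV-SEQ).
-/

set_option autoImplicit false

namespace Pool.Agent.Y302.EV

open MeasureTheory Set Filter Topology Matrix
open Pool.Agent.Y316.EV

lemma cast_ne {z : ℤ} (hz : z ≠ 0) {p : ℕ} (hp : z.natAbs < p) : (z : ZMod p) ≠ 0 := by
  intro h
  have h1 : (p : ℤ) ∣ z := (ZMod.intCast_zmod_eq_zero_iff_dvd z p).1 h
  have h2 := Int.natAbs_dvd_natAbs.2 h1
  rw [Int.natAbs_natCast] at h2
  have h3 := Nat.le_of_dvd (Int.natAbs_pos.2 hz) h2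
  omega

lemma line_card {p : ℕ} [Fact p.Prime] (c0 c1 d : ZMod p) (h : c0 ≠ 0 ∨ c1 ≠ 0) :
    {x : Tor p | c0 * x 0 + c1 * x 1 = d}.ncard ≤ p := by
  have hu : (univ : Set (ZMod p)).ncard = p := by
    rw [Set.ncard_univ, Nat.card_zmod]
  rcases h with h | h
  · calc {x : Tor p | c0 * x 0 + c1 * x 1 = d}.ncard ≤ (univ : Set (ZMod p)).ncard := by
          refine Set.ncard_le_ncard_of_injOn (fun x : Tor p => x 1) (fun _ _ => mem_univ _) ?_
            finite_univ
          intro x hx y hy hxy
          have hx' : c0 * x 0 + c1 * x 1 = d := hx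
          have hy' : c0 * y 0 + c1 * y 1 = d := hy
          have hxy' : x 1 = y 1 := hxy
          rw [hxy'] at hx'
          have h1 : c0 * x 0 = c0 * y 0 := by
            have := hx'.trans hy'.symm
            exact add_right_cancel this
          have h2 : x 0 = y 0 := mul_left_cancel₀ h h1
          funext i
          fin_cases i
          · exact h2
          · exact hxy'
      _ = p := hu
  · calc {x : Tor p | c0 * x 0 + c1 * x 1 = d}.ncard ≤ (univ : Set (ZMod p)).ncard := by
          refine Set.ncard_le_ncard_of_injOn (fun x : Tor p => x 0) (fun _ _ => mem_univ _) ?_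
            finite_univ
          intro x hx y hy hxy
          have hx' : c0 * x 0 + c1 * x 1 = d := hx
          have hy' : c0 * y 0 + c1 * y 1 = d := hy
          have hxy' : x 0 = y 0 := hxy
          rw [hxy'] at hx'
          have h1 : c1 * x 1 = c1 * y 1 := by
            have := hx'.trans hy'.symm
            exact add_left_cancel this
          have h2 : x 1 = y 1 := mul_left_cancel₀ h h1
          funext i
          fin_cases i
          · exact hxy'
          · exact h2
      _ = p := hu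

lemma hrow {p : ℕ} {γ : Aff} {x : Tor p} (h : γ • x = x) (i : Fin 2) :
    (mt γ.A i 0 : ZMod p) * x 0 + (mt γ.A i 1 : ZMod p) * x 1 + (γ.b i : ZMod p) = x i := by
  rw [smul_def] at h
  have h2 := congrFun h i
  simpa [redM, redV, mulVec, dotProduct, Fin.sum_univ_two] using h2

lemma two_cases (i : Fin 2) : i = 0 ∨ i = 1 := by
  fin_cases i
  · exact Or.inl rfl
  · exact Or.inr rfl

lemma tor_zero (n : ℕ) (i : Fin 2) : (0 : Tor n) i = 0 := rfl

lemma fix_card (γ : Aff) : ∃ P : ℕ, γ ≠ 1 → ∀ p : ℕ, p.Prime → P ≤ p →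
    {x : Tor p | γ • x = x}.ncard ≤ p := by
  by_cases hγ : γ = 1
  · exact ⟨0, fun h => absurd hγ h⟩
  by_cases hA : mt γ.A = 1
  · have hb : γ.b ≠ 0 := fun hb => hγ (Aff.ext (mt_injective (by rw [hA]; exact mt_one.symm)) hb)
    obtain ⟨i, hi⟩ := Function.ne_iff.1 hb
    refine ⟨(γ.b i).natAbs + 1, fun _ p hp hP => ?_⟩
    have h1 : {x : Tor p | γ • x = x} = ∅ := by
      rw [Set.eq_empty_iff_forall_notMem]
      intro x hx
      have h2 := hrow hx i
      have h3 : (γ.b i : ZMod p) ≠ 0 := cast_ne hi (by omega)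
      apply h3
      rw [hA] at h2
      rcases two_cases i with rfl | rfl
      · simpa using h2
      · simpa using h2
    rw [h1, Set.ncard_empty]
    exact Nat.zero_le _
  · have h1 : ∃ i j, mt γ.A i j ≠ (1 : Matrix (Fin 2) (Fin 2) ℤ) i j := by
      by_contra hc
      push Not at hc
      exact hA (Matrix.ext hc)
    obtain ⟨i, j, hij⟩ := h1
    obtain ⟨z, hz⟩ : ∃ z : Fin 2 → ℤ, ∀ j, z j = mt γ.A i j - (1 : Matrix (Fin 2) (Fin 2) ℤ) i j :=
      ⟨_, fun _ => rfl⟩
    have hzj : z j ≠ 0 := by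
      rw [hz]
      exact sub_ne_zero.2 hij
    refine ⟨(z j).natAbs + 1, fun _ p hp hP => ?_⟩
    have : Fact p.Prime := ⟨hp⟩
    have h3 : (z j : ZMod p) ≠ 0 := cast_ne hzj (by omega)
    have h4 : (z 0 : ZMod p) ≠ 0 ∨ (z 1 : ZMod p) ≠ 0 := by
      fin_cases j
      · exact Or.inl h3
      · exact Or.inr h3
    refine le_trans (Set.ncard_le_ncard ?_ (Set.toFinite _))
      (line_card (z 0 : ZMod p) (z 1 : ZMod p) (-(γ.b i : ZMod p)) h4)
    intro x hx
    have h5 := hrow hx i
    show (z 0 : ZMod p) * x 0 + (z 1 : ZMod p) * x 1 = -(γ.b i : ZMod p)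
    rw [hz, hz]
    rcases two_cases i with rfl | rfl
    · simp
      linear_combination h5
    · simp
      linear_combination h5

lemma card_tor (p : ℕ) : Nat.card (Tor p) = p ^ 2 := by
  show Nat.card (Fin 2 → ZMod p) = p ^ 2
  rw [Nat.card_fun, Nat.card_zmod, Nat.card_eq_fintype_card, Fintype.card_fin]

/-- The quotients `(ℤ/p)²` are a sofic approximation to `SL₂(ℤ) ⋉ ℤ²`. -/
theorem seq : S_SEQ := by
  classical
  refine ⟨?_, ?_⟩
  · choose PP hPP using fix_card
    obtain ⟨e, he⟩ := exists_surjective_nat Aff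
    obtain ⟨F, hF⟩ : ∃ F : ℕ → Finset Aff, ∀ n, F n = insert 1 ((Finset.range (n + 1)).image e) :=
      ⟨_, fun _ => rfl⟩
    have hp : ∀ n : ℕ, ∃ p, (n + 1) * (F n).card ^ 2 + ∑ q ∈ F n ×ˢ F n, PP (q.1⁻¹ * q.2) ≤ p ∧
        p.Prime := fun n => Nat.exists_infinite_primes _
    choose p hp1 hp2 using hp
    refine ⟨F, p, ?_, ?_, ?_, hp2, ?_⟩
    · intro m n hmn
      rw [hF, hF]
      apply Finset.insert_subset_insert
      apply Finset.image_subset_image
      intro k hk
      rw [Finset.mem_range] at hk ⊢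
      omega
    · intro γ
      obtain ⟨n, hn⟩ := he γ
      refine ⟨n, ?_⟩
      rw [hF]
      apply Finset.mem_insert_of_mem
      rw [Finset.mem_image]
      exact ⟨n, Finset.mem_range.2 (Nat.lt_succ_self n), hn⟩
    · intro n
      rw [hF]
      exact Finset.mem_insert_self _ _
    · intro n
      have : NeZero (p n) := ⟨(hp2 n).ne_zero⟩
      have hsub : {v : Tor (p n) | ¬ InjOn (fun γ : Aff => γ • v) (F n)} ⊆
          ⋃ q ∈ (F n ×ˢ F n).filter (fun q => q.1 ≠ q.2),
            {x : Tor (p n) | (q.1⁻¹ * q.2) • x = x} := by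
        intro v hv
        have hv' : ¬ InjOn (fun γ : Aff => γ • v) (F n) := hv
        unfold InjOn at hv'
        push Not at hv'
        obtain ⟨a, ha, b, hb, hab, hne⟩ := hv'
        rw [Set.mem_iUnion₂]
        refine ⟨(a, b), ?_, ?_⟩
        · rw [Finset.mem_filter, Finset.mem_product]
          exact ⟨⟨ha, hb⟩, hne⟩
        · show (a⁻¹ * b) • v = v
          have hab' : a • v = b • v := hab
          rw [mul_smul, ← hab', inv_smul_smul]
      have h1 := Set.ncard_le_ncard hsub (Set.toFinite _)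
      have h2 := Finset.set_ncard_biUnion_le ((F n ×ˢ F n).filter (fun q => q.1 ≠ q.2))
        (fun q => {x : Tor (p n) | (q.1⁻¹ * q.2) • x = x})
      have h3 : ∑ q ∈ (F n ×ˢ F n).filter (fun q => q.1 ≠ q.2),
          {x : Tor (p n) | (q.1⁻¹ * q.2) • x = x}.ncard ≤ (F n).card ^ 2 * p n := by
        have h4 : ∀ q ∈ (F n ×ˢ F n).filter (fun q => q.1 ≠ q.2),
            {x : Tor (p n) | (q.1⁻¹ * q.2) • x = x}.ncard ≤ p n := by
          intro q hq
          rw [Finset.mem_filter] at hq
          apply hPP (q.1⁻¹ * q.2) _ (p n) (hp2 n)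
          · have h5 := Finset.single_le_sum (f := fun q : Aff × Aff => PP (q.1⁻¹ * q.2))
              (fun _ _ => Nat.zero_le _) hq.1
            have h6 := hp1 n
            have h7 : PP (q.1⁻¹ * q.2) ≤ ∑ q ∈ F n ×ˢ F n, PP (q.1⁻¹ * q.2) := h5
            omega
          · intro h
            apply hq.2
            exact inv_mul_eq_one.1 h
        refine (Finset.sum_le_card_nsmul _ _ _ h4).trans ?_
        rw [smul_eq_mul]
        apply Nat.mul_le_mul_right
        refine (Finset.card_filter_le _ _).trans ?_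
        rw [Finset.card_product, sq]
      have h5 : ({v : Tor (p n) | ¬ InjOn (fun γ : Aff => γ • v) (F n)}.ncard : ℝ) ≤
          ((F n).card ^ 2 * p n : ℕ) := by exact_mod_cast (h1.trans h2).trans h3
      refine h5.trans ?_
      rw [card_tor]
      have h6 : (n + 1) * (F n).card ^ 2 ≤ p n := by
        have := hp1 n
        omega
      have h7 : ((n : ℝ) + 1) * ((F n).card : ℝ) ^ 2 ≤ p n := by exact_mod_cast h6
      have hn : (0 : ℝ) < (n : ℝ) + 1 := by positivity
      push_cast
      rw [one_div, ← div_eq_inv_mul, le_div_iff₀ hn]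
      have h8 : (0 : ℝ) ≤ p n := Nat.cast_nonneg _
      have h9 := mul_le_mul_of_nonneg_right h7 h8
      linarith
  · intro γ h
    have hb : ∀ i, γ.b i = 0 := by
      intro i
      by_contra hc
      apply cast_ne hc (Nat.lt_succ_self _)
      have h1 := hrow (h (γ.b i).natAbs 0) i
      rw [tor_zero, tor_zero, tor_zero, mul_zero, mul_zero, zero_add, zero_add] at h1
      exact h1
    have hA : mt γ.A = 1 := by
      ext i j
      by_contra hc
      have hz : mt γ.A i j - (1 : Matrix (Fin 2) (Fin 2) ℤ) i j ≠ 0 := sub_ne_zero.2 hc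
      apply cast_ne hz (Nat.lt_succ_self _)
      have h1 := hrow (h (mt γ.A i j - (1 : Matrix (Fin 2) (Fin 2) ℤ) i j).natAbs
        (Pi.single j 1 : Fin 2 → ZMod _)) i
      rw [hb i] at h1
      rcases two_cases i with rfl | rfl <;> rcases two_cases j with rfl | rfl <;>
        simp at h1 ⊢ <;> simp [h1]
    exact Aff.ext (mt_injective (by rw [hA]; exact mt_one.symm)) (funext hb)

end Pool.Agent.Y302.EV
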